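import Pool.Agent.H238.PH.Spec

set_option autoImplicit false

/-!
# Lower bound of the mean oscillation of a homogeneous map
-/

namespace Pool.Agent.H282.PH

open MeasureTheory Set Filter Topology Metric
open Pool.Agent.H238.PH
open scoped Pointwise

theorem vol_ball (c : RE 2) {r : ℝ} (hr : 0 < r) :
    (volume : Measure (RE 2)).real (ball c r) = r ^ 2 * (volume : Measure (RE 2)).real (ball 0 1) := by
  have h := Measure.addHaar_ball_of_pos (volume : Measure (RE 2)) c hr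
  rw [finrank_euclideanSpace, Fintype.card_fin] at h
  rw [Measure.real, h, ENNReal.toReal_mul, ENNReal.toReal_ofReal (by positivity)]
  rfl

theorem vol_pos : 0 < (volume : Measure (RE 2)).real (ball 0 1) := by
  rw [Measure.real]
  exact ENNReal.toReal_pos (measure_ball_pos _ _ one_pos).ne' measure_ball_lt_top.ne

theorem exists_dir (c : RE 2) : ∃ u : RE 2, ‖u‖ = 1 ∧ c = ‖c‖ • u := by
  by_cases h : c = 0
  · refine ⟨EuclideanSpace.single 0 1, by simp, ?_⟩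
    rw [h, norm_zero, zero_smul]
  · refine ⟨‖c‖⁻¹ • c, norm_smul_inv_norm h, ?_⟩
    rw [smul_smul, mul_inv_cancel₀ (norm_ne_zero_iff.2 h), one_smul]

theorem lower {n : ℕ} {γ : ℝ} {V : RE 2 → Mat n 2} (hom : Hom γ V) (hc : Continuous V)
    (hne : ∀ x, x ≠ 0 → V x ≠ 0) : ∃ ν : ℝ, 0 < ν ∧ ∀ x : RE 2, x ≠ 0 → ν * ‖x‖ ^ γ ≤ ‖V x‖ := by
  have hne' : (sphere (0 : RE 2) 1).Nonempty := ⟨EuclideanSpace.single 0 1, by simp⟩
  obtain ⟨x₀, hx₀, hmin⟩ := (isCompact_sphere (0 : RE 2) 1).exists_isMinOn hne'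
    (hc.norm.continuousOn)
  have hx₀' : x₀ ≠ 0 := by
    intro h
    rw [h] at hx₀
    simp at hx₀
  refine ⟨‖V x₀‖, norm_pos_iff.2 (hne x₀ hx₀'), fun x hx => ?_⟩
  have hx1 : 0 < ‖x‖ := norm_pos_iff.2 hx
  have hu : ‖‖x‖⁻¹ • x‖ = 1 := norm_smul_inv_norm hx
  have h1 : x = ‖x‖ • (‖x‖⁻¹ • x) := by
    rw [smul_smul, mul_inv_cancel₀ hx1.ne', one_smul]
  have h2 : ‖V x‖ = ‖x‖ ^ γ * ‖V (‖x‖⁻¹ • x)‖ := by
    conv_lhs => rw [h1]
    rw [hom ‖x‖ _ hx1, norm_smul, Real.norm_of_nonneg (by positivity)]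
  have h3 : ‖V x₀‖ ≤ ‖V (‖x‖⁻¹ • x)‖ := hmin (by simpa using hu)
  rw [h2, mul_comm]
  exact mul_le_mul_of_nonneg_left h3 (by positivity)

/-- the core estimate -/
theorem core {n : ℕ} {γ ν : ℝ} {V : RE 2 → Mat n 2} (hγ : 1 < γ) (hom : Hom γ V)
    (hc : Continuous V) (hν : 0 < ν) (hlow : ∀ x : RE 2, x ≠ 0 → ν * ‖x‖ ^ γ ≤ ‖V x‖)
    (c : RE 2) {r : ℝ} (hr : 0 < r) (a : Mat n 2) :
    (r / (2 * (‖c‖ + r)) * (ν * ((‖c‖ + r) / 4) ^ γ)) ^ 2 * ((r / 8) ^ 2 *
      (volume : Measure (RE 2)).real (ball 0 1)) ≤ 4 * ∫ x in ball c r, ‖V x - a‖ ^ 2 := by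
  obtain ⟨R, hR⟩ : ∃ R, R = ‖c‖ + r := ⟨_, rfl⟩
  have hR0 : 0 < R := by rw [hR]; positivity
  have hrR : r ≤ R := by rw [hR]; linarith [norm_nonneg c]
  rw [← hR]
  obtain ⟨l, hl⟩ : ∃ l, l = 1 + r / (2 * R) := ⟨_, rfl⟩
  have hl1 : 1 ≤ l := by rw [hl]; have : 0 ≤ r / (2 * R) := by positivity
                         linarith
  have hl0 : 0 < l := by linarith
  obtain ⟨u, hu1, hu2⟩ := exists_dir c
  obtain ⟨c', hc'⟩ : ∃ c', c' = c + (3 * r / 8) • u := ⟨_, rfl⟩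
  have hc'n : ‖c'‖ = ‖c‖ + 3 * r / 8 := by
    have h1 : c' = (‖c‖ + 3 * r / 8) • u := by
      rw [hc', add_smul, ← hu2]
    rw [h1, norm_smul, hu1, mul_one, Real.norm_of_nonneg (by positivity)]
  have hcc' : ‖c' - c‖ = 3 * r / 8 := by
    rw [hc', add_sub_cancel_left, norm_smul, hu1, mul_one, Real.norm_of_nonneg (by positivity)]
  -- geometry
  have g1 : ∀ x ∈ ball c' (r / 8), ‖x - c‖ < r / 2 := by
    intro x hx
    rw [mem_ball_iff_norm] at hx
    have h1 : x - c = (x - c') + (c' - c) := by abel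
    rw [h1]
    refine (norm_add_le _ _).trans_lt ?_
    rw [hcc']
    linarith
  have g2 : ∀ x ∈ ball c' (r / 8), R / 4 ≤ ‖x‖ := by
    intro x hx
    rw [mem_ball_iff_norm] at hx
    have h1 : ‖c'‖ ≤ ‖x‖ + ‖x - c'‖ := by
      have h2 : c' = x - (x - c') := by abel
      conv_lhs => rw [h2]
      exact norm_sub_le _ _
    rw [hc'n] at h1
    rw [hR]
    have := norm_nonneg c
    linarith
  have g3 : ∀ x ∈ ball c' (r / 8), ‖x‖ ≤ R := by
    intro x hx
    have h1 := g1 x hx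
    have h2 : ‖x‖ ≤ ‖c‖ + ‖x - c‖ := by
      have h3 : x = c + (x - c) := by abel
      conv_lhs => rw [h3]
      exact norm_add_le _ _
    rw [hR]
    linarith
  have g4 : ball c' (r / 8) ⊆ ball c r := by
    intro x hx
    rw [mem_ball_iff_norm]
    have := g1 x hx
    linarith
  have g5 : l • ball c' (r / 8) ⊆ ball c r := by
    rintro _ ⟨x, hx, rfl⟩
    rw [mem_ball_iff_norm]
    have h1 : l • x - c = (x - c) + (r / (2 * R)) • x := by
      rw [hl, add_smul, one_smul]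
      abel
    show ‖l • x - c‖ < r
    rw [h1]
    refine (norm_add_le _ _).trans_lt ?_
    rw [norm_smul, Real.norm_of_nonneg (by positivity : 0 ≤ r / (2 * R))]
    have h2 : r / (2 * R) * ‖x‖ ≤ r / (2 * R) * R :=
      mul_le_mul_of_nonneg_left (g3 x hx) (by positivity)
    have h3 : r / (2 * R) * R = r / 2 := by field_simp
    have h4 := g1 x hx
    linarith
  -- the function
  obtain ⟨f, hf⟩ : ∃ f : RE 2 → ℝ, f = fun x => ‖V x - a‖ ^ 2 := ⟨_, rfl⟩
  have hfc : Continuous f := by rw [hf]; fun_prop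
  have hf0 : ∀ x, 0 ≤ f x := fun x => by rw [hf]; positivity
  have hint : ∀ S : Set (RE 2), Bornology.IsBounded S → IntegrableOn f S := by
    intro S hS
    obtain ⟨ρ, hρ⟩ := hS.subset_closedBall (0 : RE 2)
    exact (hfc.continuousOn.integrableOn_compact (isCompact_closedBall _ _)).mono_set hρ
  have hint2 : IntegrableOn (fun x => f (l • x)) (ball c' (r / 8)) := by
    have h1 : Continuous fun x => f (l • x) := by fun_prop
    exact (h1.continuousOn.integrableOn_compact (isCompact_closedBall _ _)).mono_set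
      ball_subset_closedBall
  obtain ⟨m, hm⟩ : ∃ m, m = r / (2 * R) * (ν * (R / 4) ^ γ) := ⟨_, rfl⟩
  rw [← hm]
  have hm0 : 0 ≤ m := by rw [hm]; positivity
  have hpt : ∀ x ∈ ball c' (r / 8), m ^ 2 ≤ 2 * f (l • x) + 2 * f x := by
    intro x hx
    have hx2 := g2 x hx
    have hx0 : x ≠ 0 := by
      intro h
      rw [h, norm_zero] at hx2
      linarith
    have h1 : V (l • x) - V x = (l ^ γ - 1) • V x := by
      rw [hom l x hl0, sub_smul, one_smul]
    have h2 : r / (2 * R) ≤ l ^ γ - 1 := by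
      have h3 : l ^ (1 : ℝ) ≤ l ^ γ := Real.rpow_le_rpow_of_exponent_le hl1 hγ.le
      rw [Real.rpow_one] at h3
      have h4 : l - 1 = r / (2 * R) := by rw [hl]; ring
      linarith
    have h5 : ν * (R / 4) ^ γ ≤ ‖V x‖ := by
      refine le_trans ?_ (hlow x hx0)
      exact mul_le_mul_of_nonneg_left (Real.rpow_le_rpow (by positivity) hx2 (by linarith)) hν.le
    have h6 : m ≤ ‖V (l • x) - V x‖ := by
      have h7 : 0 ≤ r / (2 * R) := by positivity
      rw [h1, norm_smul, Real.norm_of_nonneg (by linarith), hm]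
      exact mul_le_mul h2 h5 (by positivity) (by linarith)
    have h8 : ‖V (l • x) - V x‖ ≤ ‖V (l • x) - a‖ + ‖V x - a‖ := by
      have h9 : V (l • x) - V x = (V (l • x) - a) - (V x - a) := by abel
      rw [h9]
      exact norm_sub_le _ _
    rw [hf]
    show m ^ 2 ≤ 2 * ‖V (l • x) - a‖ ^ 2 + 2 * ‖V x - a‖ ^ 2
    have h10 : m ^ 2 ≤ (‖V (l • x) - a‖ + ‖V x - a‖) ^ 2 :=
      pow_le_pow_left₀ hm0 (h6.trans h8) 2
    nlinarith [sq_nonneg (‖V (l • x) - a‖ - ‖V x - a‖)]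
  have hB : IntegrableOn f (ball c r) := hint _ isBounded_ball
  have i1 : ∫ x in ball c' (r / 8), f x ≤ ∫ x in ball c r, f x :=
    setIntegral_mono_set hB (Eventually.of_forall hf0) (g4.eventuallyLE)
  have i2 : ∫ x in ball c' (r / 8), f (l • x) ≤ ∫ x in ball c r, f x := by
    rw [Measure.setIntegral_comp_smul_of_pos volume f _ hl0, smul_eq_mul]
    have h1 : ∫ x in l • ball c' (r / 8), f x ≤ ∫ x in ball c r, f x :=
      setIntegral_mono_set hB (Eventually.of_forall hf0) (g5.eventuallyLE)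
    have h2 : 0 ≤ ∫ x in l • ball c' (r / 8), f x := integral_nonneg hf0
    have h3 : (l ^ Module.finrank ℝ (RE 2))⁻¹ ≤ 1 := inv_le_one_of_one_le₀ (one_le_pow₀ hl1)
    nlinarith
  have i3 : ∫ x in ball c' (r / 8), (m ^ 2 : ℝ) ≤
      ∫ x in ball c' (r / 8), (2 * f (l • x) + 2 * f x) := by
    refine setIntegral_mono_on ?_ ?_ measurableSet_ball hpt
    · exact integrableOn_const measure_ball_lt_top.ne
    · exact (hint2.const_mul 2).add ((hint _ isBounded_ball).const_mul 2)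
  rw [setIntegral_const, smul_eq_mul, vol_ball _ (by positivity : (0 : ℝ) < r / 8),
    integral_add (hint2.const_mul 2) ((hint _ isBounded_ball).const_mul 2),
    integral_const_mul, integral_const_mul] at i3
  have i4 : ∫ x in ball c r, ‖V x - a‖ ^ 2 = ∫ x in ball c r, f x := by rw [hf]
  rw [i4]
  linarith

theorem t_N2 : S_N2 := by
  intro n γ V hγ hom hc hne
  obtain ⟨ν, hν, hlow⟩ := lower hom hc hne
  refine ⟨ν / (32 * 4 ^ γ), by positivity, fun c r hr => ?_⟩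
  unfold osc
  apply Real.le_sqrt_of_sq_le
  obtain ⟨a, ha⟩ : ∃ a, a = ⨍ y in ball c r, V y := ⟨_, rfl⟩
  rw [← ha, setAverage_eq, smul_eq_mul, vol_ball c hr]
  have h1 := core hγ hom hc hν hlow c hr a
  have hv := vol_pos
  obtain ⟨v, hv'⟩ : ∃ v, v = (volume : Measure (RE 2)).real (ball 0 1) := ⟨_, rfl⟩
  rw [← hv'] at h1 hv ⊢
  obtain ⟨R, hR⟩ : ∃ R, R = ‖c‖ + r := ⟨_, rfl⟩
  have hR0 : 0 < R := by rw [hR]; positivity
  rw [← hR] at h1 ⊢
  have h2 : (R / 4) ^ γ = R ^ (γ - 1) * R / 4 ^ γ := by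
    rw [Real.div_rpow hR0.le (by norm_num)]
    congr 1
    have h3 : R ^ γ = R ^ ((γ - 1) + 1) := by congr 1; ring
    rw [h3, Real.rpow_add hR0, Real.rpow_one]
  rw [inv_mul_eq_div, le_div_iff₀ (by positivity)]
  rw [h2] at h1
  have h4 : (0 : ℝ) < 4 ^ γ := by positivity
  have h5 : (r / (2 * R) * (ν * (R ^ (γ - 1) * R / 4 ^ γ))) ^ 2 * ((r / 8) ^ 2 * v) =
      4 * ((ν / (32 * 4 ^ γ) * r * R ^ (γ - 1)) ^ 2 * (r ^ 2 * v)) := by
    field_simp
    ring
  rw [h5] at h1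
  linarith

end Pool.Agent.H282.PH
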